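import Pool.Agent.HAR.Stmts

namespace Pool.Agent.HAR.H24

open Finset Filter Pool.Agent.HAR
open scoped BigOperators Topology

theorem h3 : (19 : ℝ) * Real.log 2 ≤ 12 * Real.log 3 := by
  have h : Real.log ((2 : ℝ) ^ 19) ≤ Real.log ((3 : ℝ) ^ 12) :=
    Real.log_le_log (by norm_num) (by norm_num)
  rw [Real.log_pow, Real.log_pow] at h
  push_cast at h
  exact h

theorem h5 : (31 : ℝ) * Real.log 5 ≤ 72 * Real.log 2 := by
  have h : Real.log ((5 : ℝ) ^ 31) ≤ Real.log ((2 : ℝ) ^ 72) :=
    Real.log_le_log (by norm_num) (by norm_num)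
  rw [Real.log_pow, Real.log_pow] at h
  push_cast at h
  exact h

theorem ent : (0.6478 : ℝ) * Real.log 2 ≤ Real.binEntropy (1 / 6) := by
  have h1 : Real.binEntropy (1 / 6) = Real.log 2 + Real.log 3 - 5 / 6 * Real.log 5 := by
    unfold Real.binEntropy
    have e1 : ((1 : ℝ) / 6)⁻¹ = 2 * 3 := by norm_num
    have e2 : ((1 : ℝ) - 1 / 6)⁻¹ = 2 * 3 / 5 := by norm_num
    rw [e1, e2, Real.log_div (by norm_num) (by norm_num), Real.log_mul (by norm_num) (by norm_num)]
    ring
  rw [h1]
  have hl : 0 < Real.log 2 := Real.log_pos (by norm_num)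
  have a := h3
  have b := h5
  nlinarith

theorem nu1 (hC : ChoStmt) : Nu1Stmt := by
  have hl := Real.log_two_gt_d9
  have ev1 : ∀ᶠ n : ℕ in atTop, Real.log ((n : ℝ) + 1) ≤ 0.00005 * ((n : ℝ) + 1) := by
    have h1 : Tendsto (fun n : ℕ => (n : ℝ) + 1) atTop atTop :=
      tendsto_atTop_add_const_right _ _ tendsto_natCast_atTop_atTop
    have h2 := (Real.isLittleO_log_id_atTop.comp_tendsto h1).def (show (0 : ℝ) < 0.00005 by norm_num)
    filter_upwards [h2] with n hn
    simp only [Function.comp, id] at hn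
    have h3 : 0 < (n : ℝ) + 1 := by positivity
    rw [Real.norm_eq_abs, Real.norm_eq_abs, abs_of_pos h3] at hn
    exact (le_abs_self _).trans hn
  filter_upwards [ev1, eventually_ge_atTop 12] with n hn hn12
  set s := 2 * kk n with hs
  have hs1 : n ≤ 6 * s := by rw [hs]; unfold kk; omega
  have hs2 : 2 * s ≤ n := by rw [hs]; unfold kk; omega
  have hs0 : 0 < s := by omega
  have hsn : s < n := by omega
  have hc := hC n s hs0 hsn
  have hcpos : 0 < n.choose s := Nat.choose_pos hsn.le
  have n0 : (0 : ℝ) < n := by exact_mod_cast (by omega : 0 < n)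
  have s0 : (0 : ℝ) < s := by exact_mod_cast hs0
  have c0 : (0 : ℝ) < n.choose s := by exact_mod_cast hcpos
  have ns0 : (0 : ℝ) < (n : ℝ) - s := by
    have : (s : ℝ) < n := by exact_mod_cast hsn
    linarith
  have hc' : (n : ℝ) ^ n ≤ ((n : ℝ) + 1) *
      ((n.choose s : ℝ) * ((s : ℝ) ^ s * ((n : ℝ) - s) ^ (n - s))) := by
    have : ((n ^ n : ℕ) : ℝ) ≤ (((n + 1) * (n.choose s * (s ^ s * (n - s) ^ (n - s))) : ℕ) : ℝ) := by
      exact_mod_cast hc
    push_cast [Nat.cast_sub hsn.le] at this
    exact this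
  have hlog := Real.log_le_log (by positivity) hc'
  rw [Real.log_mul (by positivity) (by positivity), Real.log_mul (by positivity) (by positivity),
    Real.log_mul (by positivity) (by positivity), Real.log_pow, Real.log_pow, Real.log_pow,
    Nat.cast_sub hsn.le] at hlog
  have hent : (n : ℝ) * Real.binEntropy ((s : ℝ) / n) =
      n * Real.log n - s * Real.log s - (n - s) * Real.log (n - s) := by
    unfold Real.binEntropy
    have e1 : ((s : ℝ) / n)⁻¹ = n / s := by rw [inv_div]
    have e2 : (1 - (s : ℝ) / n)⁻¹ = n / (n - s) := by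
      have : 1 - (s : ℝ) / n = (n - s) / n := by field_simp
      rw [this, inv_div]
    rw [e1, e2, Real.log_div n0.ne' s0.ne', Real.log_div n0.ne' ns0.ne']
    field_simp
    ring
  have hmono : Real.binEntropy (1 / 6) ≤ Real.binEntropy ((s : ℝ) / n) := by
    apply Real.binEntropy_strictMonoOn.monotoneOn
    · constructor <;> norm_num
    · constructor
      · positivity
      · rw [div_le_iff₀ n0]
        have : (2 * s : ℝ) ≤ n := by exact_mod_cast hs2
        linarith
    · rw [le_div_iff₀ n0]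
      have : (n : ℝ) ≤ 6 * s := by exact_mod_cast hs1
      linarith
  have h1 : (n : ℝ) * (0.6478 * Real.log 2) ≤ n * Real.binEntropy ((s : ℝ) / n) :=
    mul_le_mul_of_nonneg_left (ent.trans hmono) n0.le
  have n12 : (12 : ℝ) ≤ n := by exact_mod_cast hn12
  rw [hent] at h1
  have h2 : (n : ℝ) * 0.6931471803 ≤ n * Real.log 2 := mul_le_mul_of_nonneg_left hl.le n0.le
  nlinarith

end Pool.Agent.HAR.H24
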